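import Pool.Agent.H70.Hunt.Stm

/-! # Only finitely many discrete gluings of non-cocompact arithmetic pieces

Setting of Q1 (Hunt): `P : Pieces n` consists of two hyperplanes `W 0 ≠ W 1` of `ℂ^(n+1)` with its
standard Hermitian form of signature `(n,1)`, of non-cocompact arithmetic lattices `Γ i` of
`SU(W i) ≅ SU(n-1,1)` and of a non-cocompact arithmetic lattice `Γ₃` of
`SU(W 0 ⊓ W 1) ≅ SU(n-2,1)` contained in both (`n ≥ 3` automatically). A homomorphism `ρ` of the
amalgamated product `Γ 0 ⋆_{Γ₃} Γ 1` is geometric if its restriction to each of the two pieces is the
conjugate of the inclusion by an element of `SU(n,1)` (so `ρ` is injective on the pieces). The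
geometric homomorphisms form, up to conjugation, a two-parameter family (the angle of the
hyperplanes and a phase).

The theorem: no geometric homomorphism is injective, whatever its image, and up to conjugation in
`SU(n,1)` only finitely many geometric homomorphisms have a discrete image. In particular, from
given pieces only finitely many lattices of `SU(n,1)` (arithmetic or not) are obtained.
-/

namespace Pool.Agent.Results.MP_5d4057_al.FinitelyManyGluings

open Pool.Agent.H70.Hunt Pool.Agent.Q107.Hunt

theorem result {n : ℕ} (P : Pieces n) :
    NoneFaithful (SU n) P.Γ P.Γ₃ P.le ∧ FinitelyManyDiscrete (SU n) P.Γ P.Γ₃ P.le :=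
  gluings P

end Pool.Agent.Results.MP_5d4057_al.FinitelyManyGluings
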