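import Pool.Agent.H70.Hunt.Std5

/-! # Gluings of `SU(n-1,1;𝒪_E)` along `SU(n-2,1;𝒪_E)` are rigid

Setting of Q1 (Hunt), for the most classical pieces: `E` is an imaginary quadratic field, `n ≥ 3`,
`Γ₀` and `Γ₁` are the stabilisers of the vectors `e_0` and `e_1` in `SU(n,1;𝒪_E)` (two copies of
`SU(n-1,1;𝒪_E)`) and `Γ₃` is their intersection (a copy of `SU(n-2,1;𝒪_E)`). The geometric
homomorphisms `Γ₀ ⋆_{Γ₃} Γ₁ → SL(n+1,ℂ)` (those restricting on each piece to the conjugate of the
inclusion by an element of `SU(n,1)`) form, up to conjugation, a two-parameter family.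

The theorem: a geometric homomorphism with discrete image either fixes a vector of positive norm
(so that its image is not a lattice of `SU(n,1)`) or is conjugate by an element of `SU(n,1)` to the
natural homomorphism, whose image lies in `SU(n,1;𝒪_E)`. In particular, a geometric homomorphism
whose image is a lattice of `SU(n,1)` is conjugate to the natural homomorphism and its image is
contained in a conjugate of the arithmetic group `SU(n,1;𝒪_E)`.
-/

namespace Pool.Agent.Results.MP_5d4057_al.StandardPieces

open Pool.Agent.H70.Hunt Pool.Agent.Q107.Hunt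

theorem result {E : IntermediateField ℚ ℂ} (hE : ImagQuad E) {n : ℕ} (hn : 3 ≤ n) :
    RigidUpTo (SU n) (stdPiece E n) (stdCore E n) (stdCore_le E n) (posFixers n) ∧
      RigidOn (SU n) (stdPiece E n) (stdCore E n) (stdCore_le E n) (IsLatticeOf n ⊤) ∧
      NatIn (stdPiece E n) (stdCore E n) (stdCore_le E n) (Picard E n) :=
  ⟨rigid_std hE hn, rigid_lattice hE hn, natIn_std E n⟩

end Pool.Agent.Results.MP_5d4057_al.StandardPieces
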